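import Mathlib
import Pool.Agent.Lib.MP_ca2859_nt.Defs
import Pool.Agent.Lib.MP_ca2859_nt.PF.Defs
import Pool.Agent.Lib.MP_ca2859_nt.PF.Last

/-!
# The discriminant bound in polynomial families of hyperelliptic curves

The definitions of `Pool.Agent.Lib.MP_ca2859_nt.Defs` are those of the problem file, for `g ≥ 2`:
a hyperelliptic curve of genus `g` over `K` is given by an equation `y² = f(x)`; its Weierstrass
models over the local ring at `v` are the integral equations `y² + Q y = P` of the same curve;
`n_v` is the least valuation of their discriminants; `Δ_C = ∏ N_v ^ n_v`; `M_C` is the product of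
the `N_v` over the places with `n_v ≠ 0` (bad reduction). The definitions of
`Pool.Agent.Lib.MP_ca2859_nt.PF.Defs` are: `famMember F t`, the member at `t` of a family
`y² = F(x)` whose coefficients are polynomials over `K` in `r` variables; `famDisc g F`: its
discriminant, a polynomial over `K` in `r` variables; `PotGood g F` (the family is potentially
good): the cross ratio of any four distinct zeros of `F` in the projective line over any extension
of `K(t_1, …, t_r)` is integral over `K[t_1, …, t_r]`.
-/

open Polynomial IsDedekindDomain NumberField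
open Pool.Agent.Lib.MP_ca2859_nt

namespace Pool.Agent.Results.MP_ca2859_nt.FamilyBound

/-- Let `K` be a number field of degree `d` with an integral basis `ω`, `g ≥ 2`, `r ≥ 1`, and let
`y² = F_t(x)` be a family of curves whose coefficients are polynomials over `K` in
`t = (t_1, …, t_r)` and which is generically hyperelliptic of genus `g`.

* If the family is potentially good, there is a constant `c` such that `Δ_C ≤ c M_C ^ κ₀`,
  `κ₀ = 2 (2 g + 1) (⌊(g + 1) / 2⌋ + 1)`, for ALL hyperelliptic curves of genus `g`
  `C : y² = F_t(x)` with `t` in `(𝓞 K) ^ r`.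
* If it is not, let `w_i ≥ m ≥ 1` be weights, let `D` be the weighted degree of the discriminant
  of `F`, let `κ > 0` and `θ > D / κ`. There is `c` such that, for all `H ≥ 1`, among the points
  `t` in `(𝓞 K) ^ r` such that the coordinates of `t_i` are of absolute value at most `H ^ w_i`,
  all but `c H ^ (d (∑ w_i - m + θ))` give a hyperelliptic curve `C : y² = F_t(x)` of genus `g`
  with `Δ_C ≤ M_C ^ κ`. -/
theorem result (K : Type) [Field K] [NumberField K] {ι : Type} [Fintype ι]
    (ω : Module.Basis ι ℤ (𝓞 K)) (r : ℕ) (hr : 0 < r) (g : ℕ) (hg : 2 ≤ g)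
    (F : (MvPolynomial (Fin r) K)[X])
    (hF : IsHyperelliptic g (F.map (algebraMap (MvPolynomial (Fin r) K)
      (FractionRing (MvPolynomial (Fin r) K))))) :
    (PotGood g F → ∃ c : ℝ, ∀ t : Fin r → 𝓞 K,
      IsHyperelliptic g (famMember F (fun i => (t i : K))) →
      (DeltaC g (famMember F (fun i => (t i : K))) : ℝ) ≤
        c * (MC g (famMember F (fun i => (t i : K))) : ℝ) ^ (2 * (2 * g + 1) * ((g + 1) / 2 + 1))) ∧
    (¬ PotGood g F → ∀ (w : Fin r → ℕ) (m : ℕ), 0 < m → (∀ i, m ≤ w i) →
      ∀ κ θ : ℝ, 0 < κ → (famDisc g F).weightedTotalDegree w / κ < θ → ∃ c : ℝ, ∀ H : ℕ, 1 ≤ H →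
      ((({t : Fin r → 𝓞 K | (∀ i j, |ω.repr (t i) j| ≤ (H : ℤ) ^ w i) ∧
        ¬ (IsHyperelliptic g (famMember F (fun i => (t i : K))) ∧
          (DeltaC g (famMember F (fun i => (t i : K))) : ℝ) ≤
            (MC g (famMember F (fun i => (t i : K))) : ℝ) ^ κ)}).ncard : ℕ) : ℝ) ≤
      c * (H : ℝ) ^ (Module.finrank ℚ K * (∑ i, (w i : ℝ) - m + θ))) :=
  family_dichotomy ω r hr g (by omega) F hF

end Pool.Agent.Results.MP_ca2859_nt.FamilyBound
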