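import Mathlib
import Pool.Agent.Lib.MP_ca2859_nt.FF.Curve
import Pool.Agent.Lib.MP_ca2859_nt.CC.Blocks
import Pool.Agent.Lib.MP_ca2859_nt.CC.Fin

/-!
# Over a fixed number field: few closed Weierstrass points decide

The definitions are those of the problem file: `Pool.Agent.Lib.MP_ca2859_nt.Defs` (hyperelliptic
curves, Weierstrass models, `Δ_C`, `M_C`), `Pool.Agent.Lib.MP_ca2859_nt.GR.Defs` (`Δ_E` and `M_E`
of an elliptic curve), `Pool.Agent.Lib.MP_ca2859_nt.FF.Curve` (`IsCurve g f Δ M`: there is a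
hyperelliptic curve of genus `g` whose finite Weierstrass points are the roots of `f`, with
invariants `Δ`, `M`; genus one: an elliptic curve and its 2-torsion polynomial `f`) and
`Pool.Agent.Lib.MP_ca2859_nt.CC.Blocks` (`Blocks g h f`: the `2h + 2` Weierstrass points are the
disjoint union of stable sets of at least two points, `g`-admissible blocks).
-/

open Polynomial NumberField
open Pool.Agent.Lib.MP_ca2859_nt Pool.Agent.Lib.MP_ca2859_nt.FF Pool.Agent.Lib.MP_ca2859_nt.CC

namespace Pool.Agent.Results.MP_ca2859_nt.FixedField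

/-- Let `g, h, D ≥ 1`. There is a constant `A` such that for every number field `K` and every
hyperelliptic curve `C` of genus `h` over `K` whose Weierstrass points have degree at most `D` over
`K` there is a hyperelliptic curve `C'` over the same field `K` with
`M_C' ≤ (A ^ [K:ℚ] |D_K| M_C) ^ A` and `Δ_C ≤ (A ^ [K:ℚ] |D_K| M_C Δ_C') ^ A` such that either `C'`
has genus `g` (and Weierstrass points of degree at most `D` if `g = 1`), or neither `C` nor `C'`
has `g`-admissible blocks of Weierstrass points and `C'` has genus `g' ≤ min (h, 3 (D - 1) / 2)`,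
`g' ≥ 2` unless `g = 2`, and at most four closed Weierstrass points, all of degree at most `D`. -/
theorem result (g h D : ℕ) (hg : 1 ≤ g) (hh : 1 ≤ h) (hD : 1 ≤ D) :
    ∃ A : ℕ, ∀ (K : Type) [Field K] [NumberField K] (f : K[X]) (Δ M : ℕ), IsCurve h f Δ M →
      (∀ p : K[X], Irreducible p → p ∣ f → p.natDegree ≤ D) →
      ∃ (g' : ℕ) (f' : K[X]) (Δ' M' : ℕ), IsCurve g' f' Δ' M' ∧
        M' ≤ (A ^ Module.finrank ℚ K * (discr K).natAbs * M) ^ A ∧
        Δ ≤ (A ^ Module.finrank ℚ K * (discr K).natAbs * M * Δ') ^ A ∧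
        ((g' = g ∧ (g = 1 → ∀ p : K[X], Irreducible p → p ∣ f' → p.natDegree ≤ D)) ∨
          (¬ Blocks g h f ∧ ¬ Blocks g g' f' ∧ (g' = 1 → g = 2) ∧ g' ≤ h ∧
            2 * g' ≤ 3 * (D - 1) ∧
            Multiset.card (UniqueFactorizationMonoid.factors f') + (2 * g' + 2 - f'.natDegree) ≤ 4 ∧
            ∀ p : K[X], Irreducible p → p ∣ f' → p.natDegree ≤ D)) :=
  main_all2 g h D hg hh hD

end Pool.Agent.Results.MP_ca2859_nt.FixedField
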