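import Mathlib
import Pool.Agent.Lib.MP_ca2859_nt.GR.Defs
import Pool.Agent.Lib.MP_ca2859_nt.GR.T1

/-!
# Uniform Szpiro for elliptic curves is equivalent to the uniform bound in every genus

The definitions are those of the problem file: `Pool.Agent.Lib.MP_ca2859_nt.Defs` (hyperelliptic
curves of genus `g`, Weierstrass models, `Δ_C`, `M_C`) and `Pool.Agent.Lib.MP_ca2859_nt.GR.Defs`
(minimal discriminant `Δ_E` and bad primes `M_E` of an elliptic curve over a number field, and the
two uniform statements).

`SzpiroUniform D κ`: there is `c` with `Δ_E ≤ c (|D_K| M_E) ^ κ` for all number fields `K` of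
degree at most `D` and all elliptic curves `E` over `K`.
`HyperUniform g D κ`: there is `c` with `Δ_C ≤ c (|D_K| M_C) ^ κ` for all number fields `K` of
degree at most `D` and all hyperelliptic curves `C` of genus `g` over `K`.
-/

open Pool.Agent.Lib.MP_ca2859_nt Pool.Agent.Lib.MP_ca2859_nt.GR

namespace Pool.Agent.Results.MP_ca2859_nt.GenusReduction

/-- For every genus `g ≥ 2` there is a constant `A` such that, for all `D` and `κ`, Szpiro's
inequality with exponent `κ` over the number fields of degree at most `A D` implies the bound of
the problem in genus `g` with exponent `A (κ + 1)` over the number fields of degree at most `D`,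
and conversely. -/
theorem result (g : ℕ) (hg : 2 ≤ g) : ∃ A : ℕ, ∀ D κ : ℕ,
    (SzpiroUniform (A * D) κ → HyperUniform g D (A * (κ + 1))) ∧
    (HyperUniform g (A * D) κ → SzpiroUniform D (A * (κ + 1))) :=
  main g (by omega)

end Pool.Agent.Results.MP_ca2859_nt.GenusReduction
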