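import Mathlib
import Pool.Agent.Lib.MP_ca2859_nt.Defs
import Pool.Agent.Lib.MP_ca2859_nt.SB.Glob

/-!
# The minimal discriminant and the stable discriminant

The definitions (in `Pool.Agent.Lib.MP_ca2859_nt.Defs`) are those of the problem file, for
`g ≥ 2`: a hyperelliptic curve of genus `g` over `K` is given by an equation `y² = f(x)`; its
Weierstrass models over the local ring at `v` are the integral equations `y² + Q y = P` of the
same curve; `n_v` is the least valuation of their discriminants; `Δ_C = ∏ N_v ^ n_v`; `M_C` is the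
product of the `N_v` over the places with `n_v ≠ 0` (bad reduction).  The set of these places is
finite (`Pool.Agent.Lib.MP_ca2859_nt.finite_bad`), so the products are genuine finite products.
The stable exponent at `v` is the infimum of `n_w(C_L) / e(w|v)` over all finite extensions `L` of
`K` and all places `w` of `L` above `v`, and `Δ_C^st = ∏ N_v ^ (stable exponent at v)`.
-/

open Polynomial IsDedekindDomain NumberField
open Pool.Agent.Lib.MP_ca2859_nt

namespace Pool.Agent.Results.MP_ca2859_nt.StableSharp

/-- For every genus `g ≥ 2` there is a constant `c` such that for every number field `K` and every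
hyperelliptic curve `C : y² = f(x)` of genus `g` over `K`,
`Δ_C^st ≤ Δ_C ≤ c ^ [K:ℚ] * M_C ^ κ(g) * Δ_C^st`, where `κ(g) = 2 (2g+1) (⌊(g+1)/2⌋ + 1)`. -/
theorem result (g : ℕ) (hg : 2 ≤ g) :
    ∃ c : ℕ, ∀ (K : Type) [Field K] [NumberField K] (f : K[X]), IsHyperelliptic g f →
      stableDelta g f ≤ (DeltaC g f : ℝ) ∧
      (DeltaC g f : ℝ) ≤ (c : ℝ) ^ Module.finrank ℚ K *
        (MC g f : ℝ) ^ (2 * (2 * g + 1) * ((g + 1) / 2 + 1)) * stableDelta g f :=
  ⟨SB.cs g, fun _ _ _ f hf => SB.global_sharp g (by omega) f hf⟩

end Pool.Agent.Results.MP_ca2859_nt.StableSharp
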